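import Pool.Agent.W845.PM.Base

set_option autoImplicit false
open scoped Classical
open Filter Topology MeasureTheory ProbabilityTheory
open scoped ENNReal NNReal BigOperators

namespace Pool.Agent.W419.PM

open Pool.Agent.W845.PM

noncomputable section

theorem abs_Psi_le (hone : S_ONE) {n : ℕ} {p : ℝ} (h0 : 0 ≤ p) (h1 : p ≤ 1) {h : ℝ≥0∞ → ℝ}
    (hh : ∀ s, |h s| ≤ 1) (u : Fin n → ℝ≥0∞) : |Psi n p h u| ≤ 1 := by
  unfold Psi
  refine (Finset.abs_sum_le_sum_abs _ _).trans ?_
  rw [← (hone n p).2]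
  apply Finset.sum_le_sum
  intro N _
  rw [abs_mul, abs_of_nonneg (ws_nonneg h0 h1 N)]
  have := mul_le_mul_of_nonneg_left (hh (∑ w ∈ N, u w)) (ws_nonneg h0 h1 N)
  simpa using this

theorem EG_sub_const (hone : S_ONE) {n : ℕ} {p : ℝ} (F : SimpleGraph (Fin n) → ℝ) (m : ℝ) :
    EG n p F - m = EG n p (fun G => F G - m) := by
  rw [EG_sub, EG_const hone]

theorem step2 : S_EXT → S_ONE → S_COM → S_UISO → S_ULOC → S_NEARP → S_TWO → S_SM → S_STEP2 := by
  intro _ hone _ hiso hloc hnear htwo hsm c g u0 k φ m hc hφ hm H p hp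
  -- abbreviations
  set f : (n : ℕ) → SimpleGraph (Fin n) → Fin n → ℝ := fun n G v => φ (U g u0 (k + 1) G v) with hf
  set PS : (n : ℕ) → ℝ → SimpleGraph (Fin n) → ℝ := fun n q K =>
    Psi n q (fun s => φ (g k s)) (fun w => U g u0 k K w) with hPS
  have hPS1 : ∀ (n : ℕ) (q : ℝ) (K : SimpleGraph (Fin n)), 0 ≤ q → q ≤ 1 → |PS n q K| ≤ 1 :=
    fun n q K h0 h1 => abs_Psi_le hone h0 h1 (fun s => hφ _) _
  have h01 := hp.1
  -- the one vertex term
  have hB : Tendsto (fun r : ℕ => |EG (r + 2) (p (r + 2)) (fun G => f (r + 2) G (Fin.last (r + 1)))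
      - m|) atTop (𝓝 0) := by
    have h1 := H (fun n => p (n + 1)) (hp.shift 1)
    have h2 : Tendsto (fun r : ℕ => EG (r + 1) (p (r + 2)) (fun K => |PS (r + 1) (p (r + 2)) K
        - m|)) atTop (𝓝 0) := by
      have h3 := (tendsto_add_atTop_iff_nat (f := fun n : ℕ => EG n (p (n + 1)) (fun K =>
        |Psi n (p (n + 1)) (fun s => φ (g k s)) (fun w => U g u0 k K w) - m|)) 1).2 h1
      exact h3
    refine squeeze_zero (fun r => abs_nonneg _) (fun r => ?_) h2
    have h4 : EG (r + 2) (p (r + 2)) (fun G => f (r + 2) G (Fin.last (r + 1)))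
        = EG (r + 1) (p (r + 2)) (fun K => PS (r + 1) (p (r + 2)) K) :=
      (htwo g u0 k (r + 1) (p (r + 2)) φ).1
    rw [h4, EG_sub_const hone]
    exact EG_abs_le (h01 _).1 (h01 _).2 _
  -- the near term
  have hN : Tendsto (fun r : ℕ => 2 * (p (r + 2) * ∑ i ∈ Finset.range (k + 1),
      (((r + 2 : ℕ) : ℝ) * p (r + 2)) ^ i)) atTop (𝓝 0) := by
    have h1 : Tendsto (fun n : ℕ => p (n + 2)) atTop (𝓝 0) :=
      (tendsto_add_atTop_iff_nat (f := p) 2).2 hp.tendsto_zero
    have h2 : Tendsto (fun n : ℕ => ((n + 2 : ℕ) : ℝ) * p (n + 2)) atTop (𝓝 c) :=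
      (tendsto_add_atTop_iff_nat (f := fun n : ℕ => (n : ℝ) * p n) 2).2 hp.2
    have h3 : Tendsto (fun r : ℕ => ∑ i ∈ Finset.range (k + 1),
      (((r + 2 : ℕ) : ℝ) * p (r + 2)) ^ i) atTop (𝓝 (∑ i ∈ Finset.range (k + 1), c ^ i)) :=
      tendsto_finsetSum _ fun i _ => h2.pow i
    have h4 := (h1.mul h3).const_mul 2
    rw [zero_mul, mul_zero] at h4
    exact h4
  -- the two vertex term
  have hP2 : Tendsto (fun r : ℕ => 2 * EG r (p (r + 2)) (fun K => |PS r (p (r + 2)) K - m|))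
      atTop (𝓝 0) := by
    have h1 := (H (fun n => p (n + 2)) (hp.shift 2)).const_mul 2
    rw [mul_zero] at h1
    exact h1
  have hA : Tendsto (fun r : ℕ => |EG (r + 2) (p (r + 2)) (fun G => f (r + 2) G (Fin.last (r + 1))
      * f (r + 2) G (Fin.castSucc (Fin.last r))) - m ^ 2|) atTop (𝓝 0) := by
    have h5 := hN.add hP2
    rw [add_zero] at h5
    refine squeeze_zero (fun r => abs_nonneg _) (fun r => ?_) h5
    set q := p (r + 2) with hq
    have q0 : 0 ≤ q := (h01 _).1
    have q1 : q ≤ 1 := (h01 _).2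
    set a : Fin (r + 2) := Fin.last (r + 1) with ha
    set b : Fin (r + 2) := Fin.castSucc (Fin.last r) with hb
    have hab : a ≠ b := (Fin.castSucc_lt_last (Fin.last r)).ne'
    set F2 : SimpleGraph (Fin (r + 2)) → ℝ := fun G =>
      φ (U g u0 (k + 1) (del G b) a) * φ (U g u0 (k + 1) (del G a) b) with hF2
    have e1 : EG (r + 2) q F2 = EG r q (fun K => (PS r q K) ^ 2) :=
      (htwo g u0 k r q φ).2
    have b1 : |EG (r + 2) q (fun G => f (r + 2) G a * f (r + 2) G b) - EG (r + 2) q F2|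
        ≤ 2 * (q * ∑ i ∈ Finset.range (k + 1), (((r + 2 : ℕ) : ℝ) * q) ^ i) := by
      rw [← EG_sub]
      refine (EG_abs_le q0 q1 _).trans ?_
      have h6 := hnear (k + 1) (r + 2) q a b q0 q1 hab
      refine le_trans ?_ (mul_le_mul_of_nonneg_left h6 (by norm_num : (0:ℝ) ≤ 2))
      rw [← EG_mul_left]
      apply EG_mono q0 q1
      intro G
      by_cases hn : near (k + 1) G a b
      · rw [if_pos hn]
        have h7 : |f (r + 2) G a * f (r + 2) G b| ≤ 1 := by
          rw [abs_mul]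
          exact mul_le_one₀ (hφ _) (abs_nonneg _) (hφ _)
        have h8 : |F2 G| ≤ 1 := by
          rw [hF2, abs_mul]
          exact mul_le_one₀ (hφ _) (abs_nonneg _) (hφ _)
        have := abs_sub (f (r + 2) G a * f (r + 2) G b) (F2 G)
        linarith
      · rw [if_neg hn]
        have h7 : U g u0 (k + 1) G a = U g u0 (k + 1) (del G b) a := hloc g u0 _ (k + 1) G a b hn
        have h8 : U g u0 (k + 1) G b = U g u0 (k + 1) (del G a) b :=
          hloc g u0 _ (k + 1) G b a (fun h => hn (near_symm h))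
        have h9 : f (r + 2) G a * f (r + 2) G b - F2 G = 0 := by
          simp only [hf, hF2]
          rw [h7, h8, sub_self]
        rw [h9]
        simp
    have b2 : |EG r q (fun K => (PS r q K) ^ 2) - m ^ 2|
        ≤ 2 * EG r q (fun K => |PS r q K - m|) := by
      rw [EG_sub_const hone]
      refine (EG_abs_le q0 q1 _).trans ?_
      rw [← EG_mul_left]
      apply EG_mono q0 q1
      intro K
      have h6 : PS r q K ^ 2 - m ^ 2 = (PS r q K + m) * (PS r q K - m) := by ring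
      rw [h6, abs_mul]
      apply mul_le_mul_of_nonneg_right _ (abs_nonneg _)
      have := abs_add_le (PS r q K) m
      have := hPS1 r q K q0 q1
      linarith
    rw [e1] at b1
    calc |EG (r + 2) q (fun G => f (r + 2) G a * f (r + 2) G b) - m ^ 2|
        = |(EG (r + 2) q (fun G => f (r + 2) G a * f (r + 2) G b)
            - EG r q (fun K => (PS r q K) ^ 2)) + (EG r q (fun K => (PS r q K) ^ 2) - m ^ 2)| := by
          congr 1; ring
      _ ≤ _ := abs_add_le _ _
      _ ≤ _ := add_le_add b1 b2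
  -- the bound
  have hbound : Tendsto (fun r : ℕ => Real.sqrt (2 / ((r + 2 : ℕ) : ℝ)
      + |EG (r + 2) (p (r + 2)) (fun G => f (r + 2) G (Fin.last (r + 1))
      * f (r + 2) G (Fin.castSucc (Fin.last r))) - m ^ 2|
      + 2 * |EG (r + 2) (p (r + 2)) (fun G => f (r + 2) G (Fin.last (r + 1)))
      - m|)) atTop (𝓝 0) := by
    have h1 : Tendsto (fun r : ℕ => 2 / ((r + 2 : ℕ) : ℝ)) atTop (𝓝 0) :=
      (tendsto_add_atTop_iff_nat (f := fun n : ℕ => (2 : ℝ) / (n : ℝ)) 2).2
        (tendsto_const_div_atTop_nhds_zero_nat 2)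
    have h2 := ((h1.add hA).add (hB.const_mul 2))
    rw [mul_zero, add_zero, add_zero] at h2
    have h3 := (Real.continuous_sqrt.tendsto 0).comp h2
    rw [Real.sqrt_zero] at h3
    exact h3
  rw [← tendsto_add_atTop_iff_nat 2]
  refine squeeze_zero (fun r => EG_nonneg (h01 _).1 (h01 _).2 fun G => abs_nonneg _)
    (fun r => ?_) hbound
  exact hsm (r + 2) (p (r + 2)) m (f (r + 2)) (Fin.last (r + 1)) (Fin.castSucc (Fin.last r))
    (by omega) (h01 _).1 (h01 _).2 hm (fun G v => hφ _)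
    (fun σ G v => by simp only [hf]; rw [hiso]) (Fin.castSucc_lt_last (Fin.last r)).ne'

end

end Pool.Agent.W419.PM
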